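import Mathlib

/-!
# Lipschitz interpolation between `L^β[0,1]` and `L^α[0,1]`, `α < ∞`

A map which is Lipschitz for the norm of `L^β` and, on `L^α`, for the norm of `L^α` satisfies
`‖U x - U z‖_α ≤ M₁ ‖x - z‖_α` for all `x, z ∈ L^β` with `x - z ∈ L^α` (density of `L^α` in `L^β` and
Fatou's lemma). So the truncation argument of Marcinkiewicz applies to the differences
`U x - U y = (U x - U z) + (U z - U y)`.
-/

open MeasureTheory Set Filter Topology
open scoped ENNReal NNReal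

namespace Pool.Agent.Results.MP_6e3e44_an.LipschitzInterpolation

/-- Lebesgue measure on `[0,1]`. -/
noncomputable abbrev leb : Measure ℝ := volume.restrict (Icc (0 : ℝ) 1)

/-- `L^p[0,1]`, complex valued, for a real exponent `p`. -/
noncomputable abbrev LL (p : ℝ) := Lp ℂ (ENNReal.ofReal p) leb

/-- The maps of the problem: `U : L^β → L^β` maps `L^α` into `L^α`, is Lipschitz with constant `M₀`
for the norm of `L^β`, and on `L^α` it is Lipschitz with constant `M₁` for the norm of `L^α`. -/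
structure Admissible (β α : ℝ) (M₀ M₁ : ℝ≥0) (U : LL β → LL β) : Prop where
  maps : ∀ x : LL β, MemLp x (ENNReal.ofReal α) leb → MemLp (U x) (ENNReal.ofReal α) leb
  lip0 : ∀ x y : LL β, eLpNorm (⇑(U x) - ⇑(U y)) (ENNReal.ofReal β) leb ≤
    M₀ * eLpNorm (⇑x - ⇑y) (ENNReal.ofReal β) leb
  lip1 : ∀ x y : LL β, MemLp x (ENNReal.ofReal α) leb → MemLp y (ENNReal.ofReal α) leb →
    eLpNorm (⇑(U x) - ⇑(U y)) (ENNReal.ofReal α) leb ≤
      M₁ * eLpNorm (⇑x - ⇑y) (ENNReal.ofReal α) leb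

/-- `L^γ` is a Lipschitz interpolation space with constant `C` between `L^β` and `L^α`. -/
def IsLipschitzInterpolation (β γ α : ℝ) (C : ℝ≥0) : Prop :=
  ∀ (M₀ M₁ : ℝ≥0) (U : LL β → LL β), Admissible β α M₀ M₁ U →
    (∀ x : LL β, MemLp x (ENNReal.ofReal γ) leb → MemLp (U x) (ENNReal.ofReal γ) leb) ∧
    (∀ x y : LL β, MemLp x (ENNReal.ofReal γ) leb → MemLp y (ENNReal.ofReal γ) leb →
      eLpNorm (⇑(U x) - ⇑(U y)) (ENNReal.ofReal γ) leb ≤
        (C * max M₀ M₁ : ℝ≥0) * eLpNorm (⇑x - ⇑y) (ENNReal.ofReal γ) leb)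

lemma ext_lip {β α : ℝ} (hβ : 1 ≤ β) {M₀ M₁ : ℝ≥0} {U : LL β → LL β}
    (hU : Admissible β α M₀ M₁ U) (x z : LL β)
    (h : MemLp (⇑x - ⇑z) (ENNReal.ofReal α) leb) :
    eLpNorm (⇑(U x) - ⇑(U z)) (ENNReal.ofReal α) leb ≤
      M₁ * eLpNorm (⇑x - ⇑z) (ENNReal.ofReal α) leb := by
  have : Fact (1 ≤ ENNReal.ofReal β) := ⟨by rw [← ENNReal.ofReal_one]; exact ENNReal.ofReal_le_ofReal hβ⟩
  have hLip : LipschitzWith M₀ U := by
    intro a b
    rw [Lp.edist_def, Lp.edist_def]
    exact hU.lip0 a b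
  -- approximation of z
  have hz := Lp.memLp z
  have hex : ∀ n : ℕ, ∃ g : SimpleFunc ℝ ℂ,
      eLpNorm (⇑z - ⇑g) (ENNReal.ofReal β) leb < ENNReal.ofReal (1 / ((n : ℝ) + 1)) ∧
      MemLp g (ENNReal.ofReal β) leb := by
    intro n
    exact hz.exists_simpleFunc_eLpNorm_sub_lt ENNReal.ofReal_ne_top
      (by rw [Ne, ENNReal.ofReal_eq_zero, not_le]; positivity)
  choose g hg hgm using hex
  set w : ℕ → LL β := fun n => (hgm n).toLp (g n) with hw
  have hwα : ∀ n, MemLp (w n) (ENNReal.ofReal α) leb := fun n =>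
    (memLp_congr_ae (hgm n).coeFn_toLp).2 (SimpleFunc.memLp_of_isFiniteMeasure _ _ _)
  have hwt : Tendsto w atTop (𝓝 z) := by
    rw [Lp.tendsto_Lp_iff_tendsto_eLpNorm']
    have h0 : Tendsto (fun n : ℕ => ENNReal.ofReal (1 / ((n : ℝ) + 1))) atTop (𝓝 0) := by
      rw [← ENNReal.ofReal_zero]
      exact ENNReal.tendsto_ofReal tendsto_one_div_add_atTop_nhds_zero_nat
    refine tendsto_of_tendsto_of_tendsto_of_le_of_le tendsto_const_nhds h0 (fun _ => bot_le) ?_
    intro n
    refine le_trans (le_of_eq ?_) (hg n).le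
    rw [← eLpNorm_neg]
    refine eLpNorm_congr_ae ?_
    filter_upwards [(hgm n).coeFn_toLp] with t ht
    simp only [Pi.neg_apply, Pi.sub_apply, hw, ht, neg_sub]
  set a : LL β := x - z with ha
  have haα : MemLp a (ENNReal.ofReal α) leb := (memLp_congr_ae (Lp.coeFn_sub x z)).2 h
  have hvα : ∀ n, MemLp (w n + a : LL β) (ENNReal.ofReal α) leb := fun n =>
    (memLp_congr_ae (Lp.coeFn_add (w n) a)).2 ((hwα n).add haα)
  have hvt : Tendsto (fun n => w n + a) atTop (𝓝 x) := by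
    have := hwt.add_const a
    rwa [ha, add_sub_cancel] at this
  have hUt : Tendsto (fun n => U (w n + a) - U (w n)) atTop (𝓝 (U x - U z)) :=
    ((hLip.continuous.tendsto x).comp hvt).sub ((hLip.continuous.tendsto z).comp hwt)
  obtain ⟨φ, -, hφ⟩ := (tendstoInMeasure_of_tendsto_Lp hUt).exists_seq_tendsto_ae
  have hF := Lp.eLpNorm_lim_le_liminf_eLpNorm (p := ENNReal.ofReal α) (μ := leb)
    (f := fun n => ⇑(U (w (φ n) + a) - U (w (φ n))))
    (fun n => Lp.aestronglyMeasurable _) _ hφ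
  have hb : ∀ n, eLpNorm (⇑(U (w n + a) - U (w n))) (ENNReal.ofReal α) leb ≤
      M₁ * eLpNorm (⇑x - ⇑z) (ENNReal.ofReal α) leb := by
    intro n
    rw [eLpNorm_congr_ae (Lp.coeFn_sub (U (w n + a)) (U (w n)))]
    refine (hU.lip1 _ _ (hvα n) (hwα n)).trans (le_of_eq ?_)
    congr 1
    refine eLpNorm_congr_ae ?_
    have hax : ⇑a =ᵐ[leb] ⇑x - ⇑z := Lp.coeFn_sub x z
    filter_upwards [Lp.coeFn_add (w n) a, hax] with t h1 h2
    rw [Pi.sub_apply, h1, Pi.add_apply, h2, Pi.sub_apply]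
    ring
  rw [← eLpNorm_congr_ae (Lp.coeFn_sub (U x) (U z))]
  refine hF.trans ?_
  refine liminf_le_of_frequently_le' (Eventually.frequently (Eventually.of_forall fun n => hb _))

/-- integral over small thresholds -/
lemma lint_small {r s : ℝ} (hr : 0 ≤ r) (hs : 0 < s) :
    ∫⁻ t in Ioi (0 : ℝ), (if t < r then ENNReal.ofReal (t ^ (s - 1)) else 0) =
      ENNReal.ofReal (r ^ s / s) := by
  have h1 : ∫⁻ t in Ioi (0 : ℝ), (if t < r then ENNReal.ofReal (t ^ (s - 1)) else 0) =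
      ∫⁻ t in Ioo (0 : ℝ) r, ENNReal.ofReal (t ^ (s - 1)) := by
    have : (fun t : ℝ => (if t < r then ENNReal.ofReal (t ^ (s - 1)) else 0)) =
        (Iio r).indicator (fun t => ENNReal.ofReal (t ^ (s - 1))) := by
      funext t; simp [indicator_apply]
    rw [this, lintegral_indicator measurableSet_Iio, Measure.restrict_restrict measurableSet_Iio]
    congr 2
    ext t; simp [and_comm]
  rw [h1, ← ofReal_integral_eq_lintegral_ofReal]
  · congr 1
    rw [← integral_Ioc_eq_integral_Ioo, ← intervalIntegral.integral_of_le hr,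
      integral_rpow (Or.inl (by linarith))]
    rw [sub_add_cancel, Real.zero_rpow hs.ne', sub_zero]
  · have := (intervalIntegral.intervalIntegrable_rpow' (a := 0) (b := r)
      (show -1 < s - 1 by linarith)).1
    exact this.mono_set Ioo_subset_Ioc_self
  · filter_upwards [self_mem_ae_restrict measurableSet_Ioo] with t ht
    exact Real.rpow_nonneg ht.1.le _

/-- integral over large thresholds -/
lemma lint_large {r s : ℝ} (hr : 0 < r) (hs : 0 < s) :
    ∫⁻ t in Ioi (0 : ℝ), (if t < r then 0 else ENNReal.ofReal (t ^ (-s - 1))) =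
      ENNReal.ofReal (r ^ (-s) / s) := by
  have h1 : ∫⁻ t in Ioi (0 : ℝ), (if t < r then 0 else ENNReal.ofReal (t ^ (-s - 1))) =
      ∫⁻ t in Ici r, ENNReal.ofReal (t ^ (-s - 1)) := by
    have : (fun t : ℝ => (if t < r then 0 else ENNReal.ofReal (t ^ (-s - 1)))) =
        (Ici r).indicator (fun t => ENNReal.ofReal (t ^ (-s - 1))) := by
      funext t
      by_cases h : t < r
      · simp [h]
      · simp [h, not_lt.1 h]
    rw [this, lintegral_indicator measurableSet_Ici, Measure.restrict_restrict measurableSet_Ici]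
    congr 2
    ext t
    simp only [mem_inter_iff, mem_Ici, mem_Ioi, and_iff_left_iff_imp]
    intro h; linarith
  rw [h1, setLIntegral_congr Ioi_ae_eq_Ici.symm, ← ofReal_integral_eq_lintegral_ofReal]
  · congr 1
    rw [integral_Ioi_rpow_of_lt (by linarith) hr]
    rw [show -s - 1 + 1 = -s by ring]
    field_simp
  · exact integrableOn_Ioi_rpow_of_lt (by linarith) hr
  · filter_upwards [self_mem_ae_restrict measurableSet_Ioi] with t ht
    exact Real.rpow_nonneg (hr.le.trans (le_of_lt ht)) _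

/-- The integration step of the Marcinkiewicz interpolation theorem. -/
lemma marcinkiewicz {Ω : Type*} [MeasurableSpace Ω] (μ : Measure Ω) [IsFiniteMeasure μ]
    {β γ α : ℝ} (hβ : 0 < β) (hβγ : β < γ) (hγα : γ < α) {F H : Ω → ℝ}
    (hF : Measurable F) (hF0 : ∀ ω, 0 ≤ F ω) (hH : AEMeasurable H μ) (hH0 : ∀ ω, 0 ≤ H ω)
    (hyp : ∀ t : ℝ, 0 < t → μ {ω | t < H ω} ≤
      ENNReal.ofReal (t ^ (-β)) * ∫⁻ ω, (if t < F ω then ENNReal.ofReal (F ω ^ β) else 0) ∂μ +
      ENNReal.ofReal (t ^ (-α)) * ∫⁻ ω, (if t < F ω then 0 else ENNReal.ofReal (F ω ^ α)) ∂μ) :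
    ∫⁻ ω, ENNReal.ofReal (H ω ^ γ) ∂μ ≤
      ENNReal.ofReal (γ * (1 / (γ - β) + 1 / (α - γ))) * ∫⁻ ω, ENNReal.ofReal (F ω ^ γ) ∂μ := by
  have hγ : 0 < γ := hβ.trans hβγ
  have hα : 0 < α := hγ.trans hγα
  rw [lintegral_rpow_eq_lintegral_meas_lt_mul μ (Eventually.of_forall hH0) hH hγ]
  rw [ENNReal.ofReal_mul hγ.le, mul_assoc]
  gcongr
  -- bound of the integrand
  set A : ℝ → Ω → ℝ≥0∞ := fun t ω =>
    if t < F ω then ENNReal.ofReal (t ^ (γ - β - 1)) * ENNReal.ofReal (F ω ^ β) else 0 with hA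
  set B : ℝ → Ω → ℝ≥0∞ := fun t ω =>
    if t < F ω then 0 else ENNReal.ofReal (t ^ (-(α - γ) - 1)) * ENNReal.ofReal (F ω ^ α) with hB
  have hAm : Measurable (Function.uncurry A) := by
    refine Measurable.ite (measurableSet_lt measurable_fst (hF.comp measurable_snd)) ?_
      measurable_const
    exact (measurable_fst.pow_const _).ennreal_ofReal.mul
      ((hF.comp measurable_snd).pow_const _).ennreal_ofReal
  have hBm : Measurable (Function.uncurry B) := by
    refine Measurable.ite (measurableSet_lt measurable_fst (hF.comp measurable_snd))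
      measurable_const ?_
    exact (measurable_fst.pow_const _).ennreal_ofReal.mul
      ((hF.comp measurable_snd).pow_const _).ennreal_ofReal
  have hstep : ∫⁻ t in Ioi (0 : ℝ), μ {ω | t < H ω} * ENNReal.ofReal (t ^ (γ - 1)) ≤
      ∫⁻ t in Ioi (0 : ℝ), ((∫⁻ ω, A t ω ∂μ) + ∫⁻ ω, B t ω ∂μ) := by
    refine setLIntegral_mono' measurableSet_Ioi fun t ht => ?_
    have ht' : (0 : ℝ) < t := ht
    refine (mul_le_mul_left (hyp t ht') _).trans (le_of_eq ?_)
    rw [add_mul]
    congr 1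
    · rw [mul_assoc, mul_comm (∫⁻ ω, _ ∂μ), ← mul_assoc, ← ENNReal.ofReal_mul (by positivity),
        ← Real.rpow_add ht', ← lintegral_const_mul']
      · refine lintegral_congr fun ω => ?_
        simp only [hA]
        split_ifs
        · congr 3; ring
        · rw [mul_zero]
      · exact ENNReal.ofReal_ne_top
    · rw [mul_assoc, mul_comm (∫⁻ ω, _ ∂μ), ← mul_assoc, ← ENNReal.ofReal_mul (by positivity),
        ← Real.rpow_add ht', ← lintegral_const_mul']
      · refine lintegral_congr fun ω => ?_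
        simp only [hB]
        split_ifs
        · rw [mul_zero]
        · congr 3; ring
      · exact ENNReal.ofReal_ne_top
  refine hstep.trans ?_
  have hAm1 : Measurable fun t => ∫⁻ ω, A t ω ∂μ := hAm.lintegral_prod_right'
  rw [lintegral_add_left hAm1]
  rw [lintegral_lintegral_swap hAm.aemeasurable, lintegral_lintegral_swap hBm.aemeasurable]
  have hAm2 : Measurable fun ω => ∫⁻ t in Ioi (0 : ℝ), A t ω := hAm.lintegral_prod_left'
  rw [← lintegral_add_left hAm2, ← lintegral_const_mul' _ _ ENNReal.ofReal_ne_top]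
  refine lintegral_mono fun ω => ?_
  rcases (hF0 ω).lt_or_eq with hpos | hzero
  · have e1 : ∫⁻ t in Ioi (0 : ℝ), A t ω =
        ENNReal.ofReal (F ω ^ (γ - β) / (γ - β)) * ENNReal.ofReal (F ω ^ β) := by
      rw [← lint_small hpos.le (sub_pos.2 hβγ), ← lintegral_mul_const' _ _ ENNReal.ofReal_ne_top]
      refine lintegral_congr fun t => ?_
      simp only [hA]
      split_ifs
      · rfl
      · rw [zero_mul]
    have e2 : ∫⁻ t in Ioi (0 : ℝ), B t ω =
        ENNReal.ofReal (F ω ^ (-(α - γ)) / (α - γ)) * ENNReal.ofReal (F ω ^ α) := by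
      rw [← lint_large hpos (sub_pos.2 hγα), ← lintegral_mul_const' _ _ ENNReal.ofReal_ne_top]
      refine lintegral_congr fun t => ?_
      simp only [hB]
      split_ifs
      · rw [zero_mul]
      · rfl
    rw [e1, e2, ← ENNReal.ofReal_mul (by have := sub_pos.2 hβγ; positivity),
      ← ENNReal.ofReal_mul (by have := sub_pos.2 hγα; positivity),
      ← ENNReal.ofReal_add (by have := sub_pos.2 hβγ; positivity)
        (by have := sub_pos.2 hγα; positivity),
      ← ENNReal.ofReal_mul (by have := sub_pos.2 hγα; have := sub_pos.2 hβγ; positivity)]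
    refine ENNReal.ofReal_le_ofReal (le_of_eq ?_)
    rw [div_mul_eq_mul_div, div_mul_eq_mul_div, ← Real.rpow_add hpos, ← Real.rpow_add hpos]
    rw [show γ - β + β = γ by ring, show -(α - γ) + α = γ by ring]
    ring
  · have e1 : ∫⁻ t in Ioi (0 : ℝ), A t ω = 0 := by
      rw [lintegral_eq_zero_iff (by exact hAm.of_uncurry_right)]
      filter_upwards with t
      simp only [hA, ← hzero, Real.zero_rpow hβ.ne', ENNReal.ofReal_zero, mul_zero, ite_self,
        Pi.zero_apply]
    have e2 : ∫⁻ t in Ioi (0 : ℝ), B t ω = 0 := by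
      rw [lintegral_eq_zero_iff (by exact hBm.of_uncurry_right)]
      filter_upwards with t
      simp only [hB, ← hzero, Real.zero_rpow hα.ne', ENNReal.ofReal_zero, mul_zero, ite_self,
        Pi.zero_apply]
    rw [e1, e2]
    simp

lemma norm_pow {p : ℝ} (hp : 0 < p) (u : ℝ → ℂ) :
    eLpNorm u (ENNReal.ofReal p) leb ^ p = ∫⁻ ω, ENNReal.ofReal (‖u ω‖ ^ p) ∂leb := by
  rw [eLpNorm_eq_lintegral_rpow_enorm_toReal (by rw [Ne, ENNReal.ofReal_eq_zero, not_le]; exact hp)
    ENNReal.ofReal_ne_top, ENNReal.toReal_ofReal hp.le, ← ENNReal.rpow_mul,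
    one_div_mul_cancel hp.ne', ENNReal.rpow_one]
  refine lintegral_congr fun ω => ?_
  rw [← ofReal_norm, ENNReal.ofReal_rpow_of_nonneg (norm_nonneg _) hp.le]

lemma cheb {p s : ℝ} (hp : 0 < p) (hs : 0 < s) {u : ℝ → ℂ} (hu : AEStronglyMeasurable u leb) :
    leb {ω | s < ‖u ω‖} ≤ ENNReal.ofReal (s ^ (-p)) * ∫⁻ ω, ENNReal.ofReal (‖u ω‖ ^ p) ∂leb := by
  have h := mul_meas_ge_le_lintegral₀ (f := fun ω => ENNReal.ofReal (‖u ω‖ ^ p)) (μ := leb)
    ((hu.norm.aemeasurable.pow_const p).ennreal_ofReal) (ENNReal.ofReal (s ^ p))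
  refine le_trans ?_ (mul_le_mul_right h (ENNReal.ofReal (s ^ (-p))))
  rw [← mul_assoc, ← ENNReal.ofReal_mul (by positivity), ← Real.rpow_add hs, neg_add_cancel,
    Real.rpow_zero, ENNReal.ofReal_one, one_mul]
  refine measure_mono fun ω hω => ?_
  exact ENNReal.ofReal_le_ofReal (Real.rpow_le_rpow hs.le (le_of_lt hω) hp.le)

lemma key {β γ α : ℝ} (hβ : 1 ≤ β) (hβγ : β < γ) (hγα : γ < α) {M₀ M₁ : ℝ≥0} {U : LL β → LL β}
    (hU : Admissible β α M₀ M₁ U) (x y : LL β) :
    eLpNorm (⇑(U x) - ⇑(U y)) (ENNReal.ofReal γ) leb ≤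
      (ENNReal.ofReal (2 * (γ * (1 / (γ - β) + 1 / (α - γ))) ^ (1 / γ)) * (max M₀ M₁ : ℝ≥0)) *
        eLpNorm (⇑x - ⇑y) (ENNReal.ofReal γ) leb := by
  have hβ0 : 0 < β := by linarith
  have hγ0 : 0 < γ := by linarith
  have hα0 : 0 < α := by linarith
  set M : ℝ≥0 := max M₀ M₁ with hM
  rcases eq_or_ne M 0 with hM0 | hM0
  · -- trivial case
    have hz : M₀ = 0 := by
      have : M₀ ≤ M := le_max_left _ _
      rw [hM0] at this
      exact le_antisymm this bot_le
    have h0 := hU.lip0 x y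
    rw [hz, ENNReal.coe_zero, zero_mul] at h0
    have h1 := (eLpNorm_eq_zero_iff ((Lp.aestronglyMeasurable _).sub (Lp.aestronglyMeasurable _))
      (by rw [Ne, ENNReal.ofReal_eq_zero, not_le]; exact hβ0)).1 (le_antisymm h0 bot_le)
    rw [eLpNorm_congr_ae h1]
    simp
  have hMpos : 0 < M := pos_iff_ne_zero.2 hM0
  have hMR : (0 : ℝ) < M := by exact_mod_cast hMpos
  -- a measurable representative of the difference
  set f : ℝ → ℂ := (Lp.aestronglyMeasurable (x - y)).mk _ with hf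
  have hfm : StronglyMeasurable f := (Lp.aestronglyMeasurable (x - y)).stronglyMeasurable_mk
  have hfe : ⇑x - ⇑y =ᵐ[leb] f :=
    (Lp.coeFn_sub x y).symm.trans (Lp.aestronglyMeasurable (x - y)).ae_eq_mk
  set F : ℝ → ℝ := fun ω => ‖f ω‖ with hF
  have hFm : Measurable F := hfm.norm.measurable
  set H : ℝ → ℝ := fun ω => ‖U x ω - U y ω‖ / (2 * M) with hH
  have hHm : AEMeasurable H leb :=
    (((Lp.aestronglyMeasurable (U x)).sub (Lp.aestronglyMeasurable (U y))).norm.aemeasurable).div_const _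
  have hyp : ∀ t : ℝ, 0 < t → leb {ω | t < H ω} ≤
      ENNReal.ofReal (t ^ (-β)) * ∫⁻ ω, (if t < F ω then ENNReal.ofReal (F ω ^ β) else 0) ∂leb +
      ENNReal.ofReal (t ^ (-α)) *
        ∫⁻ ω, (if t < F ω then 0 else ENNReal.ofReal (F ω ^ α)) ∂leb := by
    intro t ht
    -- the truncation
    set g : ℝ → ℂ := fun ω => if t < F ω then 0 else f ω with hg
    have hgm : StronglyMeasurable g :=
      StronglyMeasurable.ite (measurableSet_lt measurable_const hFm) stronglyMeasurable_const hfm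
    have hgb : ∀ ω, ‖g ω‖ ≤ t := by
      intro ω
      simp only [hg]
      split_ifs with h
      · simpa using ht.le
      · exact not_lt.1 h
    have hgL : ∀ p : ℝ≥0∞, MemLp g p leb := fun p =>
      MemLp.of_bound hgm.aestronglyMeasurable t (Eventually.of_forall hgb)
    set z : LL β := y + (hgL (ENNReal.ofReal β)).toLp g with hz
    have hzy : ⇑z - ⇑y =ᵐ[leb] g := by
      filter_upwards [Lp.coeFn_add y ((hgL (ENNReal.ofReal β)).toLp g),
        (hgL (ENNReal.ofReal β)).coeFn_toLp] with ω h1 h2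
      rw [Pi.sub_apply, hz, h1, Pi.add_apply, h2]
      ring
    have hxz : ⇑x - ⇑z =ᵐ[leb] fun ω => if t < F ω then f ω else 0 := by
      filter_upwards [hzy, hfe] with ω h1 h2
      rw [Pi.sub_apply] at h1 h2 ⊢
      have : x ω - z ω = (x ω - y ω) - (z ω - y ω) := by ring
      rw [this, h1, h2]
      simp only [hg]
      split_ifs
      · rw [sub_zero]
      · rw [sub_self]
    -- measurability
    have hm1 : AEStronglyMeasurable (⇑(U x) - ⇑(U z)) leb :=
      (Lp.aestronglyMeasurable (U x)).sub (Lp.aestronglyMeasurable (U z))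
    have hm2 : AEStronglyMeasurable (⇑(U z) - ⇑(U y)) leb :=
      (Lp.aestronglyMeasurable (U z)).sub (Lp.aestronglyMeasurable (U y))
    have hMt : 0 < (M : ℝ) * t := by positivity
    have hsub : leb {ω | t < H ω} ≤ leb {ω | (M : ℝ) * t < ‖(⇑(U x) - ⇑(U z)) ω‖} +
        leb {ω | (M : ℝ) * t < ‖(⇑(U z) - ⇑(U y)) ω‖} := by
      refine (measure_mono fun ω hω => ?_).trans (measure_union_le _ _)
      by_contra hcon
      simp only [mem_union, Set.mem_ofPred_eq, not_or, not_lt, Pi.sub_apply] at hcon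
      have h1 : t < ‖U x ω - U y ω‖ / (2 * M) := hω
      rw [lt_div_iff₀ (by positivity)] at h1
      have h2 : ‖U x ω - U y ω‖ ≤ ‖U x ω - U z ω‖ + ‖U z ω - U y ω‖ := by
        have : U x ω - U y ω = (U x ω - U z ω) + (U z ω - U y ω) := by ring
        rw [this]; exact norm_add_le _ _
      linarith [hcon.1, hcon.2]
    refine hsub.trans (add_le_add ?_ ?_)
    · refine (cheb hβ0 hMt hm1).trans ?_
      rw [← norm_pow hβ0]
      have h1 : eLpNorm (⇑(U x) - ⇑(U z)) (ENNReal.ofReal β) leb ^ β ≤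
          ENNReal.ofReal ((M : ℝ) ^ β) *
            ∫⁻ ω, (if t < F ω then ENNReal.ofReal (F ω ^ β) else 0) ∂leb := by
        refine (ENNReal.rpow_le_rpow (hU.lip0 x z) hβ0.le).trans ?_
        rw [ENNReal.mul_rpow_of_nonneg _ _ hβ0.le, norm_pow hβ0]
        refine mul_le_mul' ?_ (le_of_eq ?_)
        · rw [← ENNReal.ofReal_rpow_of_nonneg hMR.le hβ0.le, ENNReal.ofReal_coe_nnreal]
          exact ENNReal.rpow_le_rpow (ENNReal.coe_le_coe.2 (le_max_left _ _)) hβ0.le
        · refine lintegral_congr_ae ?_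
          filter_upwards [hxz] with ω h
          rw [h]
          split_ifs
          · rfl
          · rw [norm_zero, Real.zero_rpow hβ0.ne', ENNReal.ofReal_zero]
      refine (mul_le_mul_right h1 _).trans (le_of_eq ?_)
      rw [← mul_assoc, ← ENNReal.ofReal_mul (by positivity), Real.mul_rpow hMR.le ht.le]
      congr 2
      rw [mul_right_comm, ← Real.rpow_add hMR, neg_add_cancel, Real.rpow_zero, one_mul]
    · refine (cheb hα0 hMt hm2).trans ?_
      rw [← norm_pow hα0]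
      have h1 : eLpNorm (⇑(U z) - ⇑(U y)) (ENNReal.ofReal α) leb ^ α ≤
          ENNReal.ofReal ((M : ℝ) ^ α) *
            ∫⁻ ω, (if t < F ω then 0 else ENNReal.ofReal (F ω ^ α)) ∂leb := by
        have hzyα : MemLp (⇑z - ⇑y) (ENNReal.ofReal α) leb := (memLp_congr_ae hzy).2 (hgL _)
        refine (ENNReal.rpow_le_rpow (ext_lip hβ hU z y hzyα) hα0.le).trans ?_
        rw [ENNReal.mul_rpow_of_nonneg _ _ hα0.le, norm_pow hα0]
        refine mul_le_mul' ?_ (le_of_eq ?_)
        · rw [← ENNReal.ofReal_rpow_of_nonneg hMR.le hα0.le, ENNReal.ofReal_coe_nnreal]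
          exact ENNReal.rpow_le_rpow (ENNReal.coe_le_coe.2 (le_max_right _ _)) hα0.le
        · refine lintegral_congr_ae ?_
          filter_upwards [hzy] with ω h
          rw [h]
          simp only [hg]
          split_ifs
          · rw [norm_zero, Real.zero_rpow hα0.ne', ENNReal.ofReal_zero]
          · rfl
      refine (mul_le_mul_right h1 _).trans (le_of_eq ?_)
      rw [← mul_assoc, ← ENNReal.ofReal_mul (by positivity), Real.mul_rpow hMR.le ht.le]
      congr 2
      rw [mul_right_comm, ← Real.rpow_add hMR, neg_add_cancel, Real.rpow_zero, one_mul]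
  have hmain := marcinkiewicz leb hβ0 hβγ hγα hFm (fun ω => norm_nonneg _) hHm
    (fun ω => by positivity) hyp
  set K : ℝ := γ * (1 / (γ - β) + 1 / (α - γ)) with hK
  have hK0 : 0 < K := by
    have := sub_pos.2 hβγ
    have := sub_pos.2 hγα
    positivity
  have hl : ENNReal.ofReal ((2 * (M : ℝ)) ^ γ) * ∫⁻ ω, ENNReal.ofReal (H ω ^ γ) ∂leb =
      eLpNorm (⇑(U x) - ⇑(U y)) (ENNReal.ofReal γ) leb ^ γ := by
    rw [norm_pow hγ0, ← lintegral_const_mul' _ _ ENNReal.ofReal_ne_top]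
    refine lintegral_congr fun ω => ?_
    rw [← ENNReal.ofReal_mul (by positivity), ← Real.mul_rpow (by positivity) (by positivity)]
    congr 2
    simp only [hH, Pi.sub_apply]
    field_simp
  have hr : ∫⁻ ω, ENNReal.ofReal (F ω ^ γ) ∂leb =
      eLpNorm (⇑x - ⇑y) (ENNReal.ofReal γ) leb ^ γ := by
    rw [norm_pow hγ0]
    refine lintegral_congr_ae ?_
    filter_upwards [hfe] with ω h
    rw [h]
  rw [← ENNReal.rpow_le_rpow_iff hγ0, ← hl, ENNReal.mul_rpow_of_nonneg _ _ hγ0.le, ← hr,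
    ENNReal.mul_rpow_of_nonneg _ _ hγ0.le]
  refine (mul_le_mul_right hmain _).trans (le_of_eq ?_)
  rw [← mul_assoc]
  congr 1
  rw [ENNReal.ofReal_rpow_of_nonneg (by positivity) hγ0.le, ← ENNReal.ofReal_coe_nnreal (p := M),
    ENNReal.ofReal_rpow_of_nonneg hMR.le hγ0.le, ← ENNReal.ofReal_mul (by positivity),
    ← ENNReal.ofReal_mul (by positivity)]
  congr 1
  rw [Real.mul_rpow (by norm_num) hMR.le, Real.mul_rpow (by norm_num) (by positivity),
    ← Real.rpow_mul hK0.le, one_div_mul_cancel hγ0.ne', Real.rpow_one]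
  ring

/-- **`L^γ[0,1]` is a Lipschitz interpolation space between `L^β[0,1]` and `L^α[0,1]`** for all
exponents `1 ≤ β < γ < α < ∞`. -/
theorem result : ∀ β γ α : ℝ, 1 ≤ β → β < γ → γ < α →
    ∃ C : ℝ≥0, 0 < C ∧ IsLipschitzInterpolation β γ α C := by
  intro β γ α hβ hβγ hγα
  have hβ0 : 0 < β := by linarith
  have hγ0 : 0 < γ := by linarith
  have hK0 : 0 < γ * (1 / (γ - β) + 1 / (α - γ)) := by
    have := sub_pos.2 hβγ
    have := sub_pos.2 hγα
    positivity
  have hC0 : 0 < 2 * (γ * (1 / (γ - β) + 1 / (α - γ))) ^ (1 / γ) := by positivity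
  refine ⟨(2 * (γ * (1 / (γ - β) + 1 / (α - γ))) ^ (1 / γ)).toNNReal, Real.toNNReal_pos.2 hC0,
    fun M₀ M₁ U hU => ?_⟩
  have hle : ∀ x y : LL β, eLpNorm (⇑(U x) - ⇑(U y)) (ENNReal.ofReal γ) leb ≤
      ((2 * (γ * (1 / (γ - β) + 1 / (α - γ))) ^ (1 / γ)).toNNReal * max M₀ M₁ : ℝ≥0) *
        eLpNorm (⇑x - ⇑y) (ENNReal.ofReal γ) leb := by
    intro x y
    refine (key hβ hβγ hγα hU x y).trans (le_of_eq ?_)
    rw [ENNReal.coe_mul]
    rfl
  refine ⟨fun x hx => ?_, fun x y _ _ => hle x y⟩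
  have h0α : MemLp (0 : LL β) (ENNReal.ofReal α) leb :=
    (memLp_congr_ae (Lp.coeFn_zero _ _ _)).2 MemLp.zero
  have hU0 : MemLp (U 0) (ENNReal.ofReal γ) leb :=
    (hU.maps 0 h0α).mono_exponent (ENNReal.ofReal_le_ofReal hγα.le)
  have h0γ : MemLp (0 : LL β) (ENNReal.ofReal γ) leb :=
    (memLp_congr_ae (Lp.coeFn_zero _ _ _)).2 MemLp.zero
  have hd : MemLp (⇑(U x) - ⇑(U 0)) (ENNReal.ofReal γ) leb := by
    refine ⟨(Lp.aestronglyMeasurable _).sub (Lp.aestronglyMeasurable _), ?_⟩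
    refine (hle x 0).trans_lt ?_
    exact ENNReal.mul_lt_top ENNReal.coe_lt_top (hx.sub h0γ).2
  have := hd.add hU0
  rwa [sub_add_cancel] at this

end Pool.Agent.Results.MP_6e3e44_an.LipschitzInterpolation
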